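import Mathlib
import Pool.Agent.H203R3.BH.Main

set_option autoImplicit false

/-!
For every infinite-dimensional complex Hilbert space `H`, the small dimension, the global dimension
and the bidimension of the Banach algebra of all bounded operators on `H` exceed one.
-/

namespace Pool.Agent.Results.MP_216d05_an.BHAboveOne

open Pool.Agent.Helper832.CD Pool.Agent.H203R3.BH

universe u

theorem result (H : Type u) [NormedAddCommGroup H] [InnerProductSpace ℂ H] [CompleteSpace H]
    (hH : ¬ FiniteDimensional ℂ H) :
    1 < ds (H →L[ℂ] H) ∧ 1 < dg (H →L[ℂ] H) ∧ 1 < db (H →L[ℂ] H) :=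
  ⟨one_lt_ds H hH, one_lt_dg H hH, one_lt_db H hH⟩

end Pool.Agent.Results.MP_216d05_an.BHAboveOne
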