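import Mathlib
import Pool.Agent.Helper832.GDStmt
import Pool.Agent.Helper832.GDV
import Pool.Agent.Helper832.GDU
import Pool.Agent.H724R3.N.Main3
import Pool.Agent.H724R3.N.TFinal
import Pool.Agent.H724R3.N.TPermF
import Pool.Agent.H724R3.N.TPermR
import Pool.Agent.H724R3.N.TOper
import Pool.Agent.H724R3.N.KAlg

set_option autoImplicit false

/-!
The global dimension and the bidimension of the Banach algebra of the compact operators on an
infinite-dimensional Hilbert space are infinite.
-/

namespace Pool.Agent.Results.MP_216d05_an.CompactInfinite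

open Pool.Agent.Helper832.GS Pool.Agent.H724R3.N

/-- The global dimension and the bidimension of the algebra of the compact operators on an
infinite-dimensional Hilbert space are infinite. -/
theorem result (H : Type) [NormedAddCommGroup H] [InnerProductSpace ℂ H] [CompleteSpace H]
    (hH : ¬ FiniteDimensional ℂ H) : dg (KH H) = ⊤ ∧ db (KH H) = ⊤ := by
  have h1 := db_KH (mainStatement taskFinal) taskPermF taskPermR taskOper H hH
  refine ⟨?_, h1⟩
  rw [← h1]
  exact dg_eq_db fun _ _ _ _ _ _ _ _ l r h1 h2 h3 h4 h5 =>
    Pool.Agent.Helper832.RT.retract l r ⟨h1, h2, h3, h4, h5⟩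

end Pool.Agent.Results.MP_216d05_an.CompactInfinite
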